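import Pool.Agent.H61.BRX.Stmts

/-!
Row SQR of board BRX.
-/

set_option autoImplicit false

namespace Pool.STN

theorem sqr_card (m i s : ℕ) (h : i < s) :
    ((Finset.Ico i s).filter fun j => sw m j).card =
      ((Finset.Ico (i + 1) s).filter fun j => sw m j).card + (if sw m i then 1 else 0) := by
  have e : Finset.Ico i s = insert i (Finset.Ico (i + 1) s) := by
    ext j
    simp only [Finset.mem_Ico, Finset.mem_insert]
    omega
  have hn : i ∉ (Finset.Ico (i + 1) s).filter fun j => sw m j := by
    intro hh
    have := (Finset.mem_Ico.1 (Finset.mem_filter.1 hh).1).1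
    omega
  rw [e, Finset.filter_insert]
  split_ifs with hs
  · rw [Finset.card_insert_of_notMem hn]
  · rfl

theorem sqr_F0 (x : ℕ) (h : x % 3 = 0) : F x = 2 * (x / 3) := by
  unfold F
  rw [if_pos h]

theorem sqr_F1 (x : ℕ) (h : x % 3 ≠ 0) (hx : 1 ≤ x) : x ≤ F x := by
  unfold F
  rw [if_neg h]
  split_ifs with h2 <;> omega

theorem sqr_aux (m s : ℕ) (hm : ∀ i, 2 ≤ F^[i] m) (hs : ¬ dd m s) :
    ∀ n i : ℕ, i + n = s → ∀ e u : ℕ, F^[i] m = 2 ^ e * u → (e = 0 ∨ dd m i) →
      3 ^ e * u ≤ (F^[s] m) ^ (2 ^ ((Finset.Ico i s).filter fun j => sw m j).card) := by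
  intro n
  induction n with
  | zero =>
    intro i hi e u hu he
    have hi' : i = s := by omega
    subst hi'
    rcases he with he | he
    · subst he
      have : F^[i] m = u := by simpa using hu
      simp [this]
    · exact absurd he hs
  | succ n ih =>
    intro i hi e u hu he
    have hlt : i < s := by omega
    have hcard := sqr_card m i s hlt
    have hsucc : F^[i + 1] m = F (F^[i] m) := Function.iterate_succ_apply' F i m
    have hx := hm i
    by_cases hd : dd m i
    · have hd3 : F^[i] m % 3 = 0 := hd
      have h3u : 3 ∣ u := by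
        have h3 : 3 ∣ 2 ^ e * u := by
          rw [← hu]
          exact Nat.dvd_of_mod_eq_zero hd3
        have hc : Nat.Coprime 3 (2 ^ e) := Nat.Coprime.pow_right e (by norm_num)
        exact hc.dvd_of_dvd_mul_left h3
      obtain ⟨u', rfl⟩ := h3u
      have hnext : F^[i + 1] m = 2 ^ (e + 1) * u' := by
        rw [hsucc, sqr_F0 _ hd3, hu]
        have : 2 ^ e * (3 * u') = 3 * (2 ^ e * u') := by ring
        rw [this, Nat.mul_div_cancel_left _ (by norm_num : 0 < 3)]
        ring
      by_cases hd1 : dd m (i + 1)
      · have hnsw : ¬ sw m i := fun hh => hh.2 hd1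
        rw [if_neg hnsw, add_zero] at hcard
        rw [hcard]
        have := ih (i + 1) (by omega) (e + 1) u' hnext (Or.inr hd1)
        calc 3 ^ e * (3 * u') = 3 ^ (e + 1) * u' := by ring
          _ ≤ _ := this
      · have hsw : sw m i := ⟨hd, hd1⟩
        rw [if_pos hsw] at hcard
        rw [hcard, pow_succ 2, pow_mul]
        have h0 := ih (i + 1) (by omega) 0 (F^[i + 1] m) (by simp) (Or.inl rfl)
        rw [pow_zero, one_mul] at h0
        have hu1 : 1 ≤ u' := by
          rcases Nat.eq_zero_or_pos u' with h | h
          · subst h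
            rw [hu] at hx
            simp at hx
          · exact h
        calc 3 ^ e * (3 * u') = 3 ^ (e + 1) * u' := by ring
          _ ≤ (2 ^ (e + 1) * u') ^ 2 := by
            have h34 : 3 ^ (e + 1) ≤ 4 ^ (e + 1) := Nat.pow_le_pow_left (by norm_num) _
            have h4 : (2 ^ (e + 1) * u') ^ 2 = 4 ^ (e + 1) * (u' * u') := by
              have : (4 : ℕ) ^ (e + 1) = (2 ^ (e + 1)) ^ 2 := by
                rw [← pow_mul, mul_comm, pow_mul]
                norm_num
              rw [this]
              ring
            rw [h4]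
            exact Nat.mul_le_mul h34 (Nat.le_mul_of_pos_left u' hu1)
          _ = (F^[i + 1] m) ^ 2 := by rw [hnext]
          _ ≤ _ := Nat.pow_le_pow_left h0 2
    · have he0 : e = 0 := by
        rcases he with h | h
        · exact h
        · exact absurd h hd
      subst he0
      have hnsw : ¬ sw m i := fun hh => hd hh.1
      rw [if_neg hnsw, add_zero] at hcard
      rw [hcard]
      have h0 := ih (i + 1) (by omega) 0 (F^[i + 1] m) (by simp) (Or.inl rfl)
      rw [pow_zero, one_mul] at h0 ⊢
      have hle : F^[i] m ≤ F^[i + 1] m := by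
        rw [hsucc]
        exact sqr_F1 _ hd (by omega)
      have hu' : F^[i] m = u := by simpa using hu
      rw [← hu']
      exact hle.trans h0

theorem SQR_thm : SQRStmt := by
  intro m hm s i hi hs
  have := sqr_aux m s hm hs (s - i) i (by omega) 0 (F^[i] m) (by simp) (Or.inl rfl)
  rwa [pow_zero, one_mul] at this

end Pool.STN
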